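import Pool.Agent.Lib.MP_0e3b4a_gt.Iface

set_option autoImplicit false

namespace Pool.Agent.CutLoci.H52

open MeasureTheory Set Filter Topology Pool.Agent.CutLoci

variable {g : Type} [NormedAddCommGroup g] [NormedSpace ℝ g] [FiniteDimensional ℝ g] {r : ℕ}

theorem finrank_dual_clm : Module.finrank ℝ g = Module.finrank ℝ (g →L[ℝ] ℝ) := by
  rw [← (LinearMap.toContinuousLinearMap : (g →ₗ[ℝ] ℝ) ≃ₗ[ℝ] (g →L[ℝ] ℝ)).finrank_eq]
  exact (Subspace.dual_finrank_eq (K := ℝ) (V := g)).symm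

/-- Sard, equidimensional, between different spaces. -/
theorem sard [MeasurableSpace g] [BorelSpace g] (μ : Measure g) [μ.IsAddHaarMeasure]
    (F : (g →L[ℝ] ℝ) → g) (S : Set (g →L[ℝ] ℝ)) (hd : ∀ l ∈ S, DifferentiableAt ℝ F l)
    (hs : ∀ l ∈ S, ¬ ∃ A : (g →L[ℝ] ℝ) ≃L[ℝ] g, HasFDerivAt F (A : (g →L[ℝ] ℝ) →L[ℝ] g) l) :
    μ (F '' S) = 0 := by
  let ψ : g ≃L[ℝ] (g →L[ℝ] ℝ) := ContinuousLinearEquiv.ofFinrankEq finrank_dual_clm
  have himg : F '' S = (F ∘ ψ) '' (ψ ⁻¹' S) := by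
    rw [image_comp, image_preimage_eq S ψ.surjective]
  rw [himg]
  refine addHaar_image_eq_zero_of_det_fderivWithin_eq_zero μ
    (f' := fun x => (fderiv ℝ F (ψ x)).comp (ψ : g →L[ℝ] (g →L[ℝ] ℝ))) ?_ ?_
  · intro x hx
    have h1 : HasFDerivAt F (fderiv ℝ F (ψ x)) (ψ x) := (hd _ hx).hasFDerivAt
    exact (h1.comp x ψ.hasFDerivAt).hasFDerivWithinAt
  · intro x hx
    by_contra hne
    apply hs _ hx
    -- the composition is invertible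
    let E := ContinuousLinearMap.toContinuousLinearEquivOfDetNeZero
      ((fderiv ℝ F (ψ x)).comp (ψ : g →L[ℝ] (g →L[ℝ] ℝ))) hne
    refine ⟨ψ.symm.trans E, ?_⟩
    have h2 : ((ψ.symm.trans E : (g →L[ℝ] ℝ) ≃L[ℝ] g) : (g →L[ℝ] ℝ) →L[ℝ] g) =
        fderiv ℝ F (ψ x) := by
      ext l
      simp [E]
    rw [h2]
    exact (hd _ hx).hasFDerivAt

theorem crit (hN : NdifStatement g r) (hU : NuniStatement g r) : CritStatement g r := by
  intro _ _ μ _ C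
  set S : Set (g →L[ℝ] ℝ) := {l | (∃ u : Ctl r, C.Normal u l) ∧
    ¬ ∃ A : (g →L[ℝ] ℝ) ≃L[ℝ] g, HasFDerivAt C.nexpE (A : (g →L[ℝ] ℝ) →L[ℝ] g) l} with hS
  have h0 : μ (C.nexpE '' S) = 0 := by
    apply sard μ C.nexpE S
    · rintro l ⟨⟨u, hu⟩, -⟩
      exact hN C u l hu
    · rintro l ⟨-, hl⟩
      exact hl
  refine measure_mono_null ?_ h0
  rintro b ⟨u, hub, l, hl, hc⟩
  refine ⟨l, ⟨⟨u, hl⟩, hc⟩, ?_⟩
  have hex : ∃ u : Ctl r, C.Normal u l := ⟨u, hl⟩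
  have h1 : C.nexpE l = C.End hex.choose := by
    unfold Carnot.nexpE
    rw [dif_pos hex]
  rw [h1, hU C hex.choose u l hex.choose_spec hl, hub]

end Pool.Agent.CutLoci.H52
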