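import Pool.Agent.Lib.MP_0e3b4a_gt.Iface

set_option autoImplicit false

namespace Pool.Agent.CutLoci.H52

open MeasureTheory Set Filter Topology Pool.Agent.CutLoci

variable {r : ℕ}

theorem ctl_integrable (y : Ctl r) : Integrable (fun s => y s) (volume.restrict (Ioc (0 : ℝ) 1)) :=
  (Lp.memLp y).integrable (by norm_num)

/-- operator valued continuous times integrable -/
theorem integrable_apply {E F : Type} [NormedAddCommGroup E] [NormedSpace ℝ E]
    [NormedAddCommGroup F] [NormedSpace ℝ F] [FiniteDimensional ℝ E] [FiniteDimensional ℝ F]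
    (T : ℝ → E →L[ℝ] F) (hT : ContinuousOn T (Icc 0 1)) (y : ℝ → E)
    (hy : Integrable y (volume.restrict (Ioc (0 : ℝ) 1))) :
    Integrable (fun s => T s (y s)) (volume.restrict (Ioc (0 : ℝ) 1)) := by
  obtain ⟨M, hM⟩ := isCompact_Icc.exists_bound_of_continuousOn hT
  have hTm : AEStronglyMeasurable T (volume.restrict (Ioc (0 : ℝ) 1)) :=
    (hT.mono Ioc_subset_Icc_self).aestronglyMeasurable measurableSet_Ioc
  refine Integrable.mono' (hy.norm.const_mul M) ?_ ?_
  · exact (ContinuousLinearMap.id ℝ (E →L[ℝ] F)).aestronglyMeasurable_comp₂ hTm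
      hy.aestronglyMeasurable
  · filter_upwards [ae_restrict_mem measurableSet_Ioc] with s hs
    calc ‖T s (y s)‖ ≤ ‖T s‖ * ‖y s‖ := (T s).le_opNorm _
      _ ≤ M * ‖y s‖ := by
        apply mul_le_mul_of_nonneg_right (hM s (Ioc_subset_Icc_self hs)) (norm_nonneg _)

variable {g : Type} [NormedAddCommGroup g] [NormedSpace ℝ g] [FiniteDimensional ℝ g]

theorem factor {S V : Type} [AddCommGroup S] [Module ℝ S] [AddCommGroup V] [Module ℝ V]
    (L : S →ₗ[ℝ] V) (φ : S →ₗ[ℝ] ℝ) (h : ∀ y, L y = 0 → φ y = 0) :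
    ∃ m : V →ₗ[ℝ] ℝ, ∀ y, φ y = m (L y) := by
  have h1 : φ ∈ (LinearMap.ker L).dualAnnihilator := by
    rw [Submodule.mem_dualAnnihilator]
    intro w hw
    exact h w (LinearMap.mem_ker.mp hw)
  rw [← LinearMap.range_dualMap_eq_dualAnnihilator_ker] at h1
  obtain ⟨m, hm⟩ := h1
  refine ⟨m, fun y => ?_⟩
  rw [← hm]; rfl

/-- fundamental lemma -/
theorem vanish (F : ℝ → EE r →L[ℝ] ℝ) (hF : ContinuousOn F (Icc 0 1)) (a b : ℝ) (ha : 0 ≤ a)
    (hab : a < b) (hb : b ≤ 1)
    (h : ∀ y : Ctl r, SuppIn y a b → ∫ t in (0 : ℝ)..1, F t (y t) = 0) :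
    ∀ t ∈ Icc a b, F t = 0 := by
  have hsub : Icc a b ⊆ Icc 0 1 := Icc_subset_Icc ha hb
  intro t ht
  ext c
  rw [zero_apply]
  set f : ℝ → ℝ := fun t => F t c with hf
  have hfc : ContinuousOn f (Icc 0 1) := hF.clm_apply continuousOn_const
  -- the control
  set y : ℝ → EE r := (Ioo a b).indicator fun t => f t • c with hy
  obtain ⟨M, hM⟩ := isCompact_Icc.exists_bound_of_continuousOn hfc
  have hmem : MemLp y 2 (volume.restrict (Ioc (0 : ℝ) 1)) := by
    refine MemLp.of_bound ?_ (M * ‖c‖) ?_
    · apply AEStronglyMeasurable.indicator _ measurableSet_Ioo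
      exact ((hfc.mono Ioc_subset_Icc_self).smul continuousOn_const).aestronglyMeasurable
        measurableSet_Ioc
    · filter_upwards [ae_restrict_mem measurableSet_Ioc] with s hs
      have h1 := hM s (Ioc_subset_Icc_self hs)
      by_cases hs2 : s ∈ Ioo a b
      · rw [hy, indicator_of_mem hs2, norm_smul]
        exact mul_le_mul_of_nonneg_right h1 (norm_nonneg _)
      · rw [hy, indicator_of_notMem hs2, norm_zero]
        exact mul_nonneg (le_trans (norm_nonneg _) h1) (norm_nonneg _)
  have hsupp : SuppIn (hmem.toLp y) a b := by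
    unfold SuppIn
    filter_upwards [hmem.coeFn_toLp] with s hs hns
    rw [hs, hy, indicator_of_notMem hns]
  have h0 := h (hmem.toLp y) hsupp
  rw [intervalIntegral.integral_of_le zero_le_one] at h0
  have h1 : ∫ t in Ioc (0 : ℝ) 1, (Ioo a b).indicator (fun t => f t ^ 2) t = 0 := by
    refine Eq.trans ?_ h0
    apply integral_congr_ae
    filter_upwards [hmem.coeFn_toLp] with s hs
    rw [hs, hy]
    by_cases hs2 : s ∈ Ioo a b
    · rw [indicator_of_mem hs2, indicator_of_mem hs2, map_smul, smul_eq_mul, hf]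
      ring
    · rw [indicator_of_notMem hs2, indicator_of_notMem hs2, map_zero]
  have h2 : ∫ t in Ioo a b, f t ^ 2 = 0 := by
    rw [integral_indicator measurableSet_Ioo, Measure.restrict_restrict measurableSet_Ioo] at h1
    have h3 : Ioo a b ∩ Ioc 0 1 = Ioo a b := by
      apply inter_eq_left.mpr
      intro s hs
      exact ⟨lt_of_le_of_lt ha hs.1, le_trans hs.2.le hb⟩
    rwa [h3] at h1
  have hint : IntegrableOn (fun t => f t ^ 2) (Ioo a b) :=
    (((hfc.mono hsub).pow 2).integrableOn_compact isCompact_Icc).mono_set Ioo_subset_Icc_self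
  have h4 : (fun t => f t ^ 2) =ᵐ[volume.restrict (Ioo a b)] 0 :=
    (setIntegral_eq_zero_iff_of_nonneg_ae (ae_of_all _ fun t => sq_nonneg _) hint).mp h2
  -- continuity
  have h5 : ∀ s ∈ Ioo a b, f s = 0 := by
    intro s hs
    by_contra hne
    have hcont : ContinuousWithinAt f (Ioo a b) s :=
      ((hfc.mono hsub).mono Ioo_subset_Icc_self) s hs
    have hev : ∀ᶠ x in 𝓝[Ioo a b] s, f x ≠ 0 := hcont.eventually_ne hne
    rw [eventually_nhdsWithin_iff] at hev
    have hev2 : ∀ᶠ x in 𝓝 s, x ∈ Ioo a b ∧ f x ≠ 0 := by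
      filter_upwards [hev, Ioo_mem_nhds hs.1 hs.2] with x hx hx2
      exact ⟨hx2, hx hx2⟩
    obtain ⟨U, hU, hUo, hsU⟩ := eventually_nhds_iff.mp hev2
    have hpos : 0 < volume U := hUo.measure_pos volume ⟨s, hsU⟩
    have hzero : volume U = 0 := by
      have h6 : volume.restrict (Ioo a b) {x | ¬ ((fun t => f t ^ 2) x = (0 : ℝ → ℝ) x)} = 0 := h4
      have h7 : U ⊆ {x | ¬ ((fun t => f t ^ 2) x = (0 : ℝ → ℝ) x)} := by
        intro x hx
        have := (hU x hx).2
        simpa using this
      have h8 : U ⊆ Ioo a b := fun x hx => (hU x hx).1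
      have h9 : volume.restrict (Ioo a b) U = volume U := Measure.restrict_eq_self _ h8
      rw [← h9]
      exact measure_mono_null h7 h6
    exact hpos.ne' hzero
  have hcl : closure (Ioo a b) = Icc a b := closure_Ioo hab.ne
  have h10 : EqOn f 0 (Icc a b) := by
    have h11 : EqOn f 0 (Ioo a b) := fun s hs => h5 s hs
    exact h11.of_subset_closure (hfc.mono hsub) continuousOn_const Ioo_subset_Icc_self hcl.ge
  exact h10 ht

theorem mult (hB : BiliStatement g r) (hS : StrucStatement g r) : MultStatement g r := by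
  intro C u l a b ha hab hb x hx hxs hxy
  obtain ⟨⟨L, hL⟩, ⟨B, hBQ⟩, hWc, hint⟩ := hB C u
  have huint : IntegrableOn (fun s => u s) (Ioc 0 1) := ctl_integrable u
  obtain ⟨hGam, hAd, -⟩ := hS C u huint
  -- the submodule of controls supported in `(a, b)`
  let S : Submodule ℝ (Ctl r) :=
    { carrier := {y | SuppIn y a b}
      zero_mem' := by
        change SuppIn _ a b
        unfold SuppIn
        filter_upwards [Lp.coeFn_zero (EE r) 2 (volume.restrict (Ioc (0 : ℝ) 1))] with t ht _
        rw [ht]; rfl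
      add_mem' := by
        intro y z hy hz
        change SuppIn _ a b
        unfold SuppIn
        filter_upwards [hy, hz, Lp.coeFn_add y z] with t h1 h2 h3 h4
        rw [h3, Pi.add_apply, h1 h4, h2 h4, add_zero]
      smul_mem' := by
        intro k y hy
        change SuppIn _ a b
        unfold SuppIn
        filter_upwards [hy, Lp.coeFn_smul k y] with t h1 h3 h4
        rw [h3, Pi.smul_apply, h1 h4, smul_zero] }
  have hmemS : ∀ y : Ctl r, y ∈ S ↔ SuppIn y a b := fun y => Iff.rfl
  obtain ⟨m, hm⟩ := factor (((L 1).toLinearMap).comp S.subtype)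
    ((l.toLinearMap.comp (B x).toLinearMap).comp S.subtype) (by
      intro y hy
      have h1 : C.Ker u y := by
        have h2 := hL 1 (right_mem_Icc.mpr zero_le_one) (y : Ctl r)
        unfold Carnot.Ker
        rw [← h2]; exact hy
      have h3 := hxy (y : Ctl r) h1 y.2
      rw [← hBQ] at h3
      exact h3)
  let m' : g →L[ℝ] ℝ := LinearMap.toContinuousLinearMap m
  have hm' : ∀ z, m' z = m z := fun z => rfl
  refine ⟨m', ?_⟩
  -- the difference
  set F : ℝ → EE r →L[ℝ] ℝ := fun t =>
    (l.comp (C.br (C.W u x t)) - m').comp ((C.Ad u t).comp C.X) with hFdef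
  have hFapp : ∀ t c, F t c = l (C.br (C.W u x t) (C.Ad u t (C.X c))) -
      m' (C.Ad u t (C.X c)) := fun t c => rfl
  have hFc : ContinuousOn F (Icc 0 1) := by
    rw [hFdef]
    apply ContinuousOn.clm_comp
    · apply ContinuousOn.sub _ continuousOn_const
      apply ContinuousOn.clm_comp continuousOn_const
      exact C.br.continuous.comp_continuousOn (hWc x)
    · exact hAd.clm_comp continuousOn_const
  have key := vanish F hFc a b ha hab hb ?_
  · intro t ht c
    have h1 := key t ht
    have h2 := hFapp t c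
    rw [h1] at h2
    rw [zero_apply] at h2
    linarith
  · intro y hy
    have h1 := hm ⟨y, hy⟩
    simp only [LinearMap.comp_apply, Submodule.subtype_apply] at h1
    have h2 : l (B x y) = m' (L 1 y) := h1
    rw [hBQ, hL 1 (right_mem_Icc.mpr zero_le_one)] at h2
    have hQ : C.Q u x y = ∫ t in Ioc (0 : ℝ) 1,
        C.br (C.W u x t) (C.Ad u t (C.X (y t))) := by
      unfold Carnot.Q
      rw [intervalIntegral.integral_of_le zero_le_one]
    have hW : C.W u y 1 = ∫ t in Ioc (0 : ℝ) 1, C.Ad u t (C.X (y t)) := by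
      unfold Carnot.W
      rw [intervalIntegral.integral_of_le zero_le_one]
    rw [hQ, hW] at h2
    have hyint : Integrable (fun s => C.Ad u s (C.X (y s))) (volume.restrict (Ioc (0 : ℝ) 1)) :=
      integrable_apply (fun s => C.Ad u s) hAd (fun s => C.X (y s))
        (C.X.integrable_comp (ctl_integrable y))
    have hint' := hint x y
    rw [← l.integral_comp_comm hint', ← m'.integral_comp_comm hyint] at h2
    rw [intervalIntegral.integral_of_le zero_le_one]
    have h3 : ∫ t in Ioc (0 : ℝ) 1, F t (y t) =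
        (∫ t in Ioc (0 : ℝ) 1, l (C.br (C.W u x t) (C.Ad u t (C.X (y t))))) -
          ∫ t in Ioc (0 : ℝ) 1, m' (C.Ad u t (C.X (y t))) := by
      rw [← integral_sub (l.integrable_comp hint') (m'.integrable_comp hyint)]
      rfl
    rw [h3]
    exact sub_eq_zero.mpr h2

end Pool.Agent.CutLoci.H52
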